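import Pool.Agent.SA70.M13
import Pool.Agent.SC70.Defs

/-!
# MP_eb9223_co: the sausage conjecture for coverings, asymptotic form

For every `ε > 0` there are `k₀` and `d₀` such that for all `d ≥ d₀` and `k ≥ k₀` the following
holds. Let `C ⊂ ℝ^d` be a compact convex set covered by `k` unit balls. Then some convex body `C'`
covered by `k` unit balls with collinear centres satisfies `vol C ≤ (1 + ε) vol C'`, and
`√(π e / 2) vol C ≤ (1 + ε) k κ_d`, where `κ_d` is the volume of the unit ball.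
-/

set_option autoImplicit false

open MeasureTheory

namespace Pool.Agent.Results.MP_eb9223_co.SausageAsymptotic

/-- `κ_n` times the sausage constant, compared with `κ_{n+1}` -/
lemma density (n : ℕ) (hn : 1 ≤ n) (η : ℝ) (hη : 0 < η) (h : 2 / η ≤ n) :
    √(Real.pi * Real.exp 1 / 2) * (2 * (SC70.kap n * SC70.Mn n)) ≤
      (1 + η) * SC70.kap (n + 1) := by
  have hn' : (1 : ℝ) ≤ n := by exact_mod_cast hn
  have hn0 : (0 : ℝ) < n := by linarith
  have hM := SC70.Mn_pos hn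
  have hκ := SC70.kap_pos n
  have hκ1 := SC70.kap_pos (n + 1)
  have hM2 : SC70.Mn n ^ 2 ≤ 1 / (Real.exp 1 * n) := by
    rw [SC70.Mn_sq hn]
    have h1 : ((n : ℝ) / (n + 1)) ^ (n + 1) ≤ Real.exp (-1) := by
      have h2 : (n : ℝ) / (n + 1) ≤ Real.exp (-(1 / ((n : ℝ) + 1))) := by
        have h3 := Real.add_one_le_exp (-(1 / ((n : ℝ) + 1)))
        have h4 : -(1 / ((n : ℝ) + 1)) + 1 = (n : ℝ) / (n + 1) := by field_simp; ring
        linarith
      calc ((n : ℝ) / (n + 1)) ^ (n + 1) ≤ Real.exp (-(1 / ((n : ℝ) + 1))) ^ (n + 1) :=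
            pow_le_pow_left₀ (by positivity) h2 _
        _ = Real.exp (-1) := by
            rw [← Real.exp_nat_mul]
            congr 1
            push_cast
            field_simp
    have h5 : ((n : ℝ) / (n + 1)) ^ n * (1 / (n + 1)) =
        ((n : ℝ) / (n + 1)) ^ (n + 1) * (1 / n) := by
      rw [pow_succ]; field_simp
    rw [h5]
    calc ((n : ℝ) / (n + 1)) ^ (n + 1) * (1 / n) ≤ Real.exp (-1) * (1 / n) :=
          mul_le_mul_of_nonneg_right h1 (by positivity)
      _ = 1 / (Real.exp 1 * n) := by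
          rw [Real.exp_neg]; field_simp
  have hk := SC70.kap_succ_ge hn
  have hs : (0 : ℝ) < √(2 * Real.pi / ((n : ℝ) + 2)) :=
    Real.sqrt_pos.mpr (by have := Real.pi_pos; positivity)
  -- compare the squares of the factors
  have key : √(Real.pi * Real.exp 1 / 2) * (2 * SC70.Mn n) ≤
      (1 + η) * √(2 * Real.pi / ((n : ℝ) + 2)) := by
    have hpi := Real.pi_pos
    have he := Real.exp_pos 1
    refine le_of_sq_le_sq ?_ (by positivity)
    rw [mul_pow, mul_pow, mul_pow, Real.sq_sqrt (by positivity), Real.sq_sqrt (by positivity)]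
    calc Real.pi * Real.exp 1 / 2 * (2 ^ 2 * SC70.Mn n ^ 2)
        ≤ Real.pi * Real.exp 1 / 2 * (2 ^ 2 * (1 / (Real.exp 1 * n))) := by gcongr
      _ = 2 * Real.pi / n := by field_simp
      _ ≤ (1 + η) ^ 2 * (2 * Real.pi / ((n : ℝ) + 2)) := by
          rw [mul_div_assoc', div_le_div_iff₀ hn0 (by positivity)]
          have h6 : 2 ≤ η * n := by
            rw [div_le_iff₀ hη] at h; linarith
          have h7 : (n : ℝ) + 2 ≤ (1 + η) ^ 2 * n := by nlinarith [sq_nonneg η]
          calc 2 * Real.pi * ((n : ℝ) + 2) ≤ 2 * Real.pi * ((1 + η) ^ 2 * n) := by gcongr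
            _ = (1 + η) ^ 2 * (2 * Real.pi) * n := by ring
  calc √(Real.pi * Real.exp 1 / 2) * (2 * (SC70.kap n * SC70.Mn n))
      = SC70.kap n * (√(Real.pi * Real.exp 1 / 2) * (2 * SC70.Mn n)) := by ring
    _ ≤ SC70.kap n * ((1 + η) * √(2 * Real.pi / ((n : ℝ) + 2))) :=
        mul_le_mul_of_nonneg_left key hκ.le
    _ = (1 + η) * (SC70.kap n * √(2 * Real.pi / ((n : ℝ) + 2))) := by ring
    _ ≤ (1 + η) * SC70.kap (n + 1) := mul_le_mul_of_nonneg_left hk (by linarith)

theorem result : ∀ ε : ℝ, 0 < ε → ∃ k₀ d₀ : ℕ, ∀ d : ℕ, d₀ ≤ d →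
    ∀ (k : ℕ) (C : Set (EuclideanSpace ℝ (Fin d))), k₀ ≤ k → SC70.Covered k C →
      (∃ C' : Set (EuclideanSpace ℝ (Fin d)),
        SC70.SausageBody k C' ∧ volume C ≤ ENNReal.ofReal (1 + ε) * volume C') ∧
      ENNReal.ofReal √(Real.pi * Real.exp 1 / 2) * volume C ≤ ENNReal.ofReal (1 + ε) *
        (k * volume (Metric.closedBall (0 : EuclideanSpace ℝ (Fin d)) 1)) := by
  intro ε hε
  obtain ⟨η, hη⟩ : ∃ η : ℝ, η = min ε 1 / 3 := ⟨_, rfl⟩
  have hm0 : 0 < min ε 1 := lt_min hε one_pos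
  have hη0 : 0 < η := by rw [hη]; positivity
  have hη1 : 3 * η ≤ 1 := by rw [hη]; linarith [min_le_right ε 1]
  have hηε : 3 * η ≤ ε := by rw [hη]; linarith [min_le_left ε 1]
  obtain ⟨k₀, d₀, hd₀, H⟩ := SA70.asymptotic4 η hη0 (by linarith)
  refine ⟨k₀ + 1, d₀ + ⌈2 / η⌉₊ + 1, ?_⟩
  intro d hd
  obtain ⟨n, rfl⟩ : ∃ n, d = n + 1 := ⟨d - 1, by omega⟩
  rintro k C hk ⟨hconv, hCc, X, hX, hcov⟩
  have hn2 : 2 / η ≤ n := (Nat.le_ceil _).trans (by
    have : ⌈2 / η⌉₊ ≤ n := by omega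
    exact_mod_cast this)
  have hfin : volume C ≠ ⊤ := hCc.measure_lt_top.ne
  have hV : volume C = ENNReal.ofReal (volume.real C) := by
    rw [measureReal_def, ENNReal.ofReal_toReal hfin]
  have hB : volume (Metric.closedBall (0 : EuclideanSpace ℝ (Fin (n + 1))) 1) =
      ENNReal.ofReal (SC70.kap (n + 1)) := by
    unfold SC70.kap
    rw [measureReal_def, ENNReal.ofReal_toReal
      (isCompact_closedBall (0 : EuclideanSpace ℝ (Fin (n + 1))) 1).measure_ne_top]
  have hkk : (k : ENNReal) = ENNReal.ofReal k := by rw [ENNReal.ofReal_natCast]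
  have hκ1 := SC70.kap_pos (n + 1)
  have hk0 : (0 : ℝ) ≤ k := Nat.cast_nonneg k
  have h1 : volume.real C ≤ (1 + η) * (2 * (k : ℝ) * (SC70.kap n * SC70.Mn n)) := by
    rw [← hX]
    exact H n (by omega) C X hconv hCc hcov (by omega)
  have hM := SC70.Mn_pos (n := n) (by omega)
  have hκ := SC70.kap_pos n
  constructor
  · obtain ⟨C', Y, c1, c2, c3, c4, c5, c6, c7⟩ :=
      SC70.sausage_exists (n := n) (by omega) k (by omega)
    refine ⟨C', ⟨c1, c2, c3, Y, c4, c5, c6⟩, ?_⟩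
    rw [c7, ← ENNReal.ofReal_mul (by linarith), hV]
    refine ENNReal.ofReal_le_ofReal (h1.trans ?_)
    exact mul_le_mul_of_nonneg_right (by linarith) (by positivity)
  · rw [hB, hV, hkk, ← ENNReal.ofReal_mul (Real.sqrt_nonneg _), ← ENNReal.ofReal_mul hk0,
      ← ENNReal.ofReal_mul (by linarith)]
    refine ENNReal.ofReal_le_ofReal ?_
    have h2 := density n (by omega) η hη0 hn2
    calc √(Real.pi * Real.exp 1 / 2) * volume.real C
        ≤ √(Real.pi * Real.exp 1 / 2) * ((1 + η) * (2 * k * (SC70.kap n * SC70.Mn n))) :=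
          mul_le_mul_of_nonneg_left h1 (Real.sqrt_nonneg _)
      _ = (1 + η) * k * (√(Real.pi * Real.exp 1 / 2) * (2 * (SC70.kap n * SC70.Mn n))) := by ring
      _ ≤ (1 + η) * k * ((1 + η) * SC70.kap (n + 1)) :=
          mul_le_mul_of_nonneg_left h2 (by positivity)
      _ = ((1 + η) * (1 + η)) * (k * SC70.kap (n + 1)) := by ring
      _ ≤ (1 + ε) * (k * SC70.kap (n + 1)) := by
          apply mul_le_mul_of_nonneg_right _ (by positivity)
          nlinarith

end Pool.Agent.Results.MP_eb9223_co.SausageAsymptotic
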