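import Pool.Agent.SA70.DD
import Pool.Agent.SC70.TFinal
import Pool.Agent.SC70.RoundFin
import Pool.Agent.SC70.Defs

/-!
# MP_eb9223_co: bodies which are long in several directions

For every `i ≥ 1` and `ε > 0` there are `c > 0` and `d₀` such that for `d ≥ d₀` the following
holds. Let `C ⊂ ℝ^d` be a compact convex set covered by `k ≥ 1` unit balls which is long in `2 i`
orthogonal directions, and let `a = i ^ i e ^ (-i) / i!`. Then some convex body `C'` covered by `k`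
unit balls with collinear centres satisfies `vol C ≤ (1 + ε) √(π e / 2) a vol C'`, and
`vol C ≤ (1 + ε) a k κ_d`, where `κ_d` is the volume of the unit ball.
-/

set_option autoImplicit false

open MeasureTheory

namespace Pool.Agent.Results.MP_eb9223_co.SausageDirections

/-- `C` is long in `j` orthogonal directions (with constant `c`): there are `j` pairwise orthogonal
vectors `v` of length at least `1 / (c √d)` for which `v + C` covers all of `C` except for a part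
of volume at most `c vol C`, or there are `j` chords of `C` of length at least `√d / c` with
pairwise orthogonal directions. -/
def Long {d : ℕ} (j : ℕ) (c : ℝ) (C : Set (EuclideanSpace ℝ (Fin d))) : Prop :=
  (∃ v : Fin j → EuclideanSpace ℝ (Fin d), (∀ a b, a ≠ b → inner ℝ (v a) (v b) = 0) ∧
    ∀ a, SC70.LongDir c C (v a)) ∨
  ∃ x y : Fin j → EuclideanSpace ℝ (Fin d), (∀ a, x a ∈ C ∧ y a ∈ C) ∧
    (∀ a b, a ≠ b → inner ℝ (x a - y a) (x b - y b) = 0) ∧ ∀ a, √(d : ℝ) / c ≤ ‖x a - y a‖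

theorem core (i : ℕ) (hi : 1 ≤ i) (ε : ℝ) (hε : 0 < ε) (hε1 : ε ≤ 1) : ∃ c : ℝ, 0 < c ∧
    ∃ d₀ : ℕ, ∀ n : ℕ, d₀ ≤ n → ∀ (C : Set (EuclideanSpace ℝ (Fin (n + 1))))
      (X : Finset (EuclideanSpace ℝ (Fin (n + 1)))), Convex ℝ C → IsCompact C →
      C ⊆ ⋃ x ∈ X, Metric.closedBall x 1 → Long (2 * i) c C →
      volume.real C ≤ (1 + ε) * ((i : ℝ) ^ i * Real.exp (-i) / (i.factorial : ℝ)) *
        (X.card * SC70.kap (n + 1)) := by
  obtain ⟨c₁, hc₁, d₀, H⟩ := SA70.dirs_bound i hi ε hε hε1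
  obtain ⟨c₂, hc₂⟩ : ∃ c₂ : ℝ, c₂ = min c₁ 1 := ⟨_, rfl⟩
  have h20 : 0 < c₂ := by rw [hc₂]; exact lt_min hc₁ one_pos
  have h21 : c₂ ≤ c₁ := by rw [hc₂]; exact min_le_left _ _
  have h22 : c₂ ≤ 1 := by rw [hc₂]; exact min_le_right _ _
  refine ⟨c₂ ^ 2, by positivity, d₀, ?_⟩
  intro n hn C X hconv hCc hcov hlong
  have hN : (0 : ℝ) < (n : ℝ) + 1 := by positivity
  have hs : 0 < √((n : ℝ) + 1) := Real.sqrt_pos.mpr hN
  have hcast : ((n + 1 : ℕ) : ℝ) = (n : ℝ) + 1 := by push_cast; ring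
  rcases hlong with ⟨v, hv, hL⟩ | ⟨x, y, hxy, horth, hlen⟩
  · refine H n hn C X hconv hCc hcov v hv fun a => ⟨?_, ?_⟩
    · have h1 := (hL a).1
      rw [hcast] at h1
      refine le_trans ?_ h1
      apply one_div_le_one_div_of_le (by positivity)
      apply mul_le_mul_of_nonneg_right _ hs.le
      nlinarith
    · refine (hL a).2.trans (mul_le_mul' (ENNReal.ofReal_le_ofReal ?_) le_rfl)
      nlinarith
  · obtain ⟨t, ht⟩ : ∃ t : ℝ, t = c₂ / ((n : ℝ) + 1) := ⟨_, rfl⟩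
    have ht0 : 0 < t := by rw [ht]; positivity
    have ht1 : t ≤ 1 := by
      rw [ht, div_le_one hN]
      have : (0 : ℝ) ≤ n := Nat.cast_nonneg n
      linarith
    have hNt : ((n + 1 : ℕ) : ℝ) * t = c₂ := by
      rw [hcast, ht]; field_simp
    refine H n hn C X hconv hCc hcov (fun a => t • (x a - y a)) (fun a b hab => ?_)
      fun a => ⟨?_, ?_⟩
    · rw [inner_smul_left, inner_smul_right, horth a b hab]; simp
    · have h1 := hlen a
      rw [hcast] at h1
      rw [norm_smul, Real.norm_of_nonneg ht0.le]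
      have h2 : 1 / (c₁ * √((n : ℝ) + 1)) ≤ 1 / (c₂ * √((n : ℝ) + 1)) :=
        one_div_le_one_div_of_le (by positivity) (mul_le_mul_of_nonneg_right h21 hs.le)
      have h3 : 1 / (c₂ * √((n : ℝ) + 1)) = t * (√((n : ℝ) + 1) / c₂ ^ 2) := by
        rw [ht]
        have hsq : √((n : ℝ) + 1) ^ 2 = (n : ℝ) + 1 := Real.sq_sqrt hN.le
        rw [div_mul_div_comm, div_eq_div_iff (by positivity) (by positivity)]
        calc 1 * (((n : ℝ) + 1) * c₂ ^ 2) = √((n : ℝ) + 1) ^ 2 * c₂ ^ 2 := by rw [hsq]; ring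
          _ = c₂ * √((n : ℝ) + 1) * (c₂ * √((n : ℝ) + 1)) := by ring
      rw [h3] at h2
      exact h2.trans (mul_le_mul_of_nonneg_left h1 ht0.le)
    · have h1 := SC70.chord_shift C hconv hCc (y a) (x a) (hxy a).2 (hxy a).1 t ht0.le ht1
      rw [hNt] at h1
      exact h1.trans (mul_le_mul' (ENNReal.ofReal_le_ofReal h21) le_rfl)

/-- the sausage constant is at least the limit value -/
lemma kap_le {n : ℕ} (hn : 1 ≤ n) :
    SC70.kap (n + 1) ≤ √(Real.pi * Real.exp 1 / 2) * (2 * (SC70.kap n * SC70.Mn n)) := by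
  have h1 := SA70.h27_kap_ge hn
  have h2 := SC70.Mn_ge hn
  have hpi := Real.pi_pos
  have he := Real.exp_pos 1
  have hn1 : (0 : ℝ) < (n : ℝ) + 1 := by positivity
  have hn3 : (0 : ℝ) < (n : ℝ) + 3 := by positivity
  have hκ := SC70.kap_pos n
  have hκ1 := SC70.kap_pos (n + 1)
  have hM := SC70.Mn_pos hn
  have key : 1 ≤ √(Real.pi * Real.exp 1 / 2) * (2 * ((((n : ℝ) + 2) /
      √(2 * Real.pi * ((n : ℝ) + 3))) * (1 / √(Real.exp 1 * ((n : ℝ) + 1))))) := by
    refine le_of_sq_le_sq ?_ (by positivity)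
    have e1 : (√(Real.pi * Real.exp 1 / 2) * (2 * ((((n : ℝ) + 2) /
        √(2 * Real.pi * ((n : ℝ) + 3))) * (1 / √(Real.exp 1 * ((n : ℝ) + 1)))))) ^ 2 =
        ((n : ℝ) + 2) ^ 2 / (((n : ℝ) + 1) * ((n : ℝ) + 3)) := by
      rw [mul_pow, mul_pow, mul_pow, div_pow, div_pow, Real.sq_sqrt (by positivity),
        Real.sq_sqrt (by positivity), Real.sq_sqrt (by positivity)]
      field_simp
    rw [e1, one_pow, le_div_iff₀ (by positivity)]
    nlinarith
  calc SC70.kap (n + 1) = SC70.kap (n + 1) * 1 := by ring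
    _ ≤ SC70.kap (n + 1) * (√(Real.pi * Real.exp 1 / 2) * (2 * ((((n : ℝ) + 2) /
        √(2 * Real.pi * ((n : ℝ) + 3))) * (1 / √(Real.exp 1 * ((n : ℝ) + 1)))))) :=
        mul_le_mul_of_nonneg_left key hκ1.le
    _ = √(Real.pi * Real.exp 1 / 2) * (2 * ((SC70.kap (n + 1) * (((n : ℝ) + 2) /
        √(2 * Real.pi * ((n : ℝ) + 3)))) * (1 / √(Real.exp 1 * ((n : ℝ) + 1))))) := by ring
    _ ≤ √(Real.pi * Real.exp 1 / 2) * (2 * (SC70.kap n * SC70.Mn n)) := by
        apply mul_le_mul_of_nonneg_left _ (Real.sqrt_nonneg _)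
        apply mul_le_mul_of_nonneg_left _ (by norm_num)
        exact mul_le_mul h1 h2 (by positivity) hκ.le

theorem result : ∀ i : ℕ, 1 ≤ i → ∀ ε : ℝ, 0 < ε → ∃ c : ℝ, 0 < c ∧ ∃ d₀ : ℕ, ∀ d : ℕ, d₀ ≤ d →
    ∀ (k : ℕ) (C : Set (EuclideanSpace ℝ (Fin d))), 1 ≤ k → SC70.Covered k C →
      Long (2 * i) c C →
      (∃ C' : Set (EuclideanSpace ℝ (Fin d)), SC70.SausageBody k C' ∧
        volume C ≤ ENNReal.ofReal ((1 + ε) * (√(Real.pi * Real.exp 1 / 2) *
          ((i : ℝ) ^ i * Real.exp (-i) / (i.factorial : ℝ)))) * volume C') ∧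
      volume C ≤ ENNReal.ofReal ((1 + ε) * ((i : ℝ) ^ i * Real.exp (-i) / (i.factorial : ℝ))) *
        (k * volume (Metric.closedBall (0 : EuclideanSpace ℝ (Fin d)) 1)) := by
  intro i hi ε hε
  obtain ⟨c, hc, d₀, H⟩ := core i hi (min ε 1) (lt_min hε one_pos) (min_le_right _ _)
  refine ⟨c, hc, d₀ + 2, ?_⟩
  intro d hd
  obtain ⟨n, rfl⟩ : ∃ n, d = n + 1 := ⟨d - 1, by omega⟩
  rintro k C hk ⟨hconv, hCc, X, hX, hcov⟩ hlong
  have hκ := SC70.kap_pos (n + 1)
  have hB : volume (Metric.closedBall (0 : EuclideanSpace ℝ (Fin (n + 1))) 1) =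
      ENNReal.ofReal (SC70.kap (n + 1)) := by
    unfold SC70.kap
    rw [measureReal_def, ENNReal.ofReal_toReal
      (isCompact_closedBall (0 : EuclideanSpace ℝ (Fin (n + 1))) 1).measure_ne_top]
  have hkk : (k : ENNReal) = ENNReal.ofReal k := by rw [ENNReal.ofReal_natCast]
  have hk0 : (0 : ℝ) ≤ k := Nat.cast_nonneg k
  have hV : volume C = ENNReal.ofReal (volume.real C) := by
    rw [measureReal_def, ENNReal.ofReal_toReal hCc.measure_lt_top.ne]
  obtain ⟨f, hf⟩ : ∃ f : ℝ, f = (i : ℝ) ^ i * Real.exp (-i) / (i.factorial : ℝ) := ⟨_, rfl⟩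
  have hf0 : 0 ≤ f := by rw [hf]; positivity
  have h1 : volume.real C ≤ (1 + ε) * f * (k * SC70.kap (n + 1)) := by
    have h2 := H n (by omega) C X hconv hCc hcov hlong
    rw [hX, ← hf] at h2
    refine h2.trans ?_
    apply mul_le_mul_of_nonneg_right _ (by positivity)
    apply mul_le_mul_of_nonneg_right _ hf0
    linarith [min_le_left ε 1]
  rw [← hf]
  constructor
  · obtain ⟨C', Y, c1, c2, c3, c4, c5, c6, c7⟩ :=
      SC70.sausage_exists (n := n) (by omega) k hk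
    refine ⟨C', ⟨c1, c2, c3, Y, c4, c5, c6⟩, ?_⟩
    rw [c7, hV, ← ENNReal.ofReal_mul (by positivity)]
    refine ENNReal.ofReal_le_ofReal (h1.trans ?_)
    calc (1 + ε) * f * (k * SC70.kap (n + 1))
        ≤ (1 + ε) * f * (k * (√(Real.pi * Real.exp 1 / 2) * (2 * (SC70.kap n * SC70.Mn n)))) := by
          apply mul_le_mul_of_nonneg_left _ (by positivity)
          exact mul_le_mul_of_nonneg_left (kap_le (by omega)) hk0
      _ = (1 + ε) * (√(Real.pi * Real.exp 1 / 2) * f) * (2 * k * (SC70.kap n * SC70.Mn n)) := by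
          ring
  · rw [hB, hV, hkk, ← ENNReal.ofReal_mul hk0, ← ENNReal.ofReal_mul (by positivity)]
    exact ENNReal.ofReal_le_ofReal h1

end Pool.Agent.Results.MP_eb9223_co.SausageDirections
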