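import Pool.Agent.SA70.QO
import Pool.Agent.SC70.Defs

/-!
# MP_eb9223_co: counterexamples are sausages up to the scale `1 / √d`

For every `η > 0` there are `R`, `k₀` and `d₀` such that for all `d ≥ d₀` and `k ≥ k₀` the
following holds. Let `C ⊂ ℝ^d` be a compact convex set covered by `k` unit balls. Then either some
convex body `C'` covered by `k` unit balls with collinear centres satisfies
`vol C ≤ (499 / 500) vol C'`, or there is a line such that the centre of every unit ball with at
least the proportion `η` of its volume in `C` has distance at most `R / √d` from the line.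
-/

set_option autoImplicit false

open MeasureTheory

namespace Pool.Agent.Results.MP_eb9223_co.SausageStructure

theorem result : ∀ η : ℝ, 0 < η → ∃ (R : ℝ) (k₀ d₀ : ℕ), ∀ d : ℕ, d₀ ≤ d →
    ∀ (k : ℕ) (C : Set (EuclideanSpace ℝ (Fin d))), k₀ ≤ k → SC70.Covered k C →
      (∃ C' : Set (EuclideanSpace ℝ (Fin d)),
        SC70.SausageBody k C' ∧ volume C ≤ ENNReal.ofReal (499 / 500) * volume C') ∨
      ∃ p e : EuclideanSpace ℝ (Fin d), ‖e‖ = 1 ∧ ∀ x : EuclideanSpace ℝ (Fin d),
        ENNReal.ofReal η * volume (Metric.closedBall x (1 : ℝ)) ≤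
          volume (C ∩ Metric.closedBall x 1) →
        ∃ t : ℝ, ‖x - (p + t • e)‖ ≤ R / √(d : ℝ) := by
  intro η hη
  obtain ⟨R, k₀, d₀, hd₀, H⟩ := SA70.structure71 η hη
  refine ⟨R, k₀ + 1, d₀ + 2, ?_⟩
  intro d hd
  obtain ⟨n, rfl⟩ : ∃ n, d = n + 1 := ⟨d - 1, by omega⟩
  rintro k C hk ⟨hconv, hCc, X, hX, hcov⟩
  have hfin : volume C ≠ ⊤ := hCc.measure_lt_top.ne
  have hV : volume C = ENNReal.ofReal (volume.real C) := by
    rw [measureReal_def, ENNReal.ofReal_toReal hfin]
  rcases H n (by omega) C X hconv hCc hcov (by omega) with h | ⟨p, e, he, h⟩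
  · left
    obtain ⟨C', Y, c1, c2, c3, c4, c5, c6, c7⟩ :=
      SC70.sausage_exists (n := n) (by omega) k (by omega)
    refine ⟨C', ⟨c1, c2, c3, Y, c4, c5, c6⟩, ?_⟩
    rw [c7, ← ENNReal.ofReal_mul (by norm_num), hV]
    apply ENNReal.ofReal_le_ofReal
    rw [← hX]
    exact h
  · right
    refine ⟨p, e, he, ?_⟩
    intro x hx
    have hcast : ((n + 1 : ℕ) : ℝ) = (n : ℝ) + 1 := by push_cast; ring
    rw [hcast]
    apply h x
    have hκ := SC70.kap_pos (n + 1)
    have hball : volume (Metric.closedBall x (1 : ℝ)) = ENNReal.ofReal (SC70.kap (n + 1)) := by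
      rw [← SA70.vol_ball_real x, measureReal_def, ENNReal.ofReal_toReal
        (isCompact_closedBall x 1).measure_ne_top]
    rw [hball, ← ENNReal.ofReal_mul hη.le] at hx
    rw [measureReal_def]
    exact (ENNReal.ofReal_le_iff_le_toReal (ne_top_of_le_ne_top hfin
      (measure_mono Set.inter_subset_left))).mp hx

end Pool.Agent.Results.MP_eb9223_co.SausageStructure
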