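import Pool.Agent.SA70.U7
import Pool.Agent.SA70.U8

/-!
# MP_eb9223_co: the least covering density over all numbers `k ≥ 2` of unit balls in high dimensions

Put `β = (√2 exp (-1/4) + ∫_{s ≤ -1/√2} exp (-s²/2) ds) / √(2π) = 0.6791...`. For every `ε > 0` there
is `d₀` such that for all `d ≥ d₀` the following holds. If `k ≥ 2` unit balls cover a convex set
`C ⊂ ℝ^d`, then `vol C ≤ (β + ε) k κ_d`, where `κ_d` is the volume of the unit ball; and some convex
body covered by two unit balls has volume at least `(β - ε) 2 κ_d`. That is, `min_{k ≥ 2} ϑ_k(B^d)`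
tends to `1/β = 1.4724...`, and two balls attain it asymptotically.
-/

set_option autoImplicit false

open MeasureTheory

namespace Pool.Agent.Results.MP_eb9223_co.TwoBalls

theorem result : ∀ ε : ℝ, 0 < ε → ∃ d₀ : ℕ, ∀ d : ℕ, d₀ ≤ d →
    (∀ (k : ℕ) (b : Fin k → EuclideanSpace ℝ (Fin d)) (C : Set (EuclideanSpace ℝ (Fin d))),
      2 ≤ k → Convex ℝ C → C ⊆ ⋃ i, Metric.closedBall (b i) 1 →
      volume C ≤ ENNReal.ofReal
        ((√2 * Real.exp (-(1 / 4)) + ∫ s in Set.Iic (-(1 / √2 : ℝ)), Real.exp (-(s ^ 2 / 2))) /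
          √(2 * Real.pi) + ε) *
          (k * volume (Metric.closedBall (0 : EuclideanSpace ℝ (Fin d)) 1))) ∧
    ∃ (y₁ y₂ : EuclideanSpace ℝ (Fin d)) (C' : Set (EuclideanSpace ℝ (Fin d))),
      y₁ ≠ y₂ ∧ Convex ℝ C' ∧ IsCompact C' ∧ (interior C').Nonempty ∧
      C' ⊆ Metric.closedBall y₁ 1 ∪ Metric.closedBall y₂ 1 ∧
      ENNReal.ofReal
        ((√2 * Real.exp (-(1 / 4)) + ∫ s in Set.Iic (-(1 / √2 : ℝ)), Real.exp (-(s ^ 2 / 2))) /
          √(2 * Real.pi) - ε) *
          (2 * volume (Metric.closedBall (0 : EuclideanSpace ℝ (Fin d)) 1)) ≤ volume C' := by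
  classical
  have h2 : 2 * (1 / √2) = √2 := by
    rw [mul_one_div, div_eq_iff (by positivity)]
    exact (Real.mul_self_sqrt (by norm_num)).symm
  have hB1 : √2 * Real.exp (-(1 / 4)) + ∫ s in Set.Iic (-(1 / √2 : ℝ)), Real.exp (-(s ^ 2 / 2)) =
      SA70.B1 := by
    unfold SA70.B1
    rw [h2]
  rw [hB1]
  have hs1 : (25066 : ℝ) / 10000 ≤ √(2 * Real.pi) := by
    apply Real.le_sqrt_of_sq_le
    have := Real.pi_gt_d6
    norm_num at this ⊢
    linarith
  have hs2 : √(2 * Real.pi) ≤ 251 / 100 := by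
    rw [Real.sqrt_le_left (by norm_num)]
    have := Real.pi_lt_d6
    norm_num at this ⊢
    linarith
  have hs0 : 0 < √(2 * Real.pi) := by linarith
  have hb2 : 6 / 10 ≤ SA70.B1 / √(2 * Real.pi) := by
    rw [le_div_iff₀ hs0]
    have := SA70.B1_ge
    linarith
  intro ε hε
  obtain ⟨d₀, h⟩ := SA70.pair_gap3 ε hε
  obtain ⟨d₁, H⟩ := SA70.two_body (2 * ε) (by positivity)
  refine ⟨d₀ + d₁ + 1, fun d hd => ?_⟩
  obtain ⟨n, rfl⟩ : ∃ n, d = n + 1 := ⟨d - 1, by omega⟩
  have hκ := SC70.kap_pos (n + 1)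
  have hB : volume (Metric.closedBall (0 : EuclideanSpace ℝ (Fin (n + 1))) 1) =
      ENNReal.ofReal (SC70.kap (n + 1)) := by
    unfold SC70.kap
    rw [measureReal_def, ENNReal.ofReal_toReal
      (isCompact_closedBall (0 : EuclideanSpace ℝ (Fin (n + 1))) 1).measure_ne_top]
  constructor
  swap
  · obtain ⟨C', Y, c1, c2, c3, c4, c5, c6, c7⟩ := H n (by omega)
    obtain ⟨y₁, y₂, hne, hY⟩ := Finset.card_eq_two.1 c4
    refine ⟨y₁, y₂, C', hne, c1, c2, c3, ?_, ?_⟩
    · intro x hx
      obtain ⟨y, hy, hxy⟩ := Set.mem_iUnion₂.1 (c6 hx)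
      rw [hY, Finset.mem_insert, Finset.mem_singleton] at hy
      rcases hy with rfl | rfl
      · exact Or.inl hxy
      · exact Or.inr hxy
    · have hV' : volume C' = ENNReal.ofReal (volume.real C') := by
        rw [measureReal_def, ENNReal.ofReal_toReal c2.measure_lt_top.ne]
      have h22 : (2 : ENNReal) * ENNReal.ofReal (SC70.kap (n + 1)) =
          ENNReal.ofReal (2 * SC70.kap (n + 1)) := by
        rw [ENNReal.ofReal_mul (by norm_num)]
        norm_num
      rw [hB, hV', h22]
      rcases le_or_gt 0 (SA70.B1 / √(2 * Real.pi) - ε) with h0 | h0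
      · rw [← ENNReal.ofReal_mul h0]
        refine ENNReal.ofReal_le_ofReal (le_trans (le_of_eq ?_) c7)
        ring
      · rw [ENNReal.ofReal_of_nonpos h0.le, zero_mul]
        exact zero_le
  intro k b C hk hC hcov
  obtain ⟨β, hβ⟩ : ∃ β : ℝ, β = SA70.B1 / √(2 * Real.pi) + ε := ⟨_, rfl⟩
  have hβ1 : 1 / 2 ≤ β := by rw [hβ]; linarith
  rw [← hβ]
  have hk2 : (2 : ℝ) ≤ k := by exact_mod_cast hk
  -- the closure
  have hUc : IsCompact (⋃ i, Metric.closedBall (b i) 1) :=
    isCompact_iUnion fun i => isCompact_closedBall _ _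
  have hCc : IsCompact (closure C) := hUc.of_isClosed_subset isClosed_closure
    (closure_minimal hcov hUc.isClosed)
  have hCl : closure C ⊆ ⋃ i, Metric.closedBall (b i) 1 := closure_minimal hcov hUc.isClosed
  have hX : closure C ⊆ ⋃ x ∈ Finset.univ.image b, Metric.closedBall x 1 := by
    intro y hy
    obtain ⟨i, hi⟩ := Set.mem_iUnion.1 (hCl hy)
    exact Set.mem_biUnion (Finset.mem_coe.2 (Finset.mem_image_of_mem b (Finset.mem_univ i))) hi
  have hcard : (Finset.univ.image b).card ≤ k := by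
    simpa using Finset.card_image_le (s := Finset.univ) (f := b)
  have hcardR : ((Finset.univ.image b).card : ℝ) ≤ k := by exact_mod_cast hcard
  have hV : volume C ≤ ENNReal.ofReal (volume.real (closure C)) := by
    rw [measureReal_def, ENNReal.ofReal_toReal hCc.measure_lt_top.ne]
    exact measure_mono subset_closure
  have key : volume.real (closure C) ≤ β * (k * SC70.kap (n + 1)) := by
    rcases le_or_gt 2 (Finset.univ.image b).card with h2 | h2
    · have h3 := h n (by omega) (closure C) _ hC.closure hCc hX h2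
      rw [← hβ] at h3
      exact h3.trans (mul_le_mul_of_nonneg_left (mul_le_mul_of_nonneg_right hcardR hκ.le)
        (by linarith))
    · -- a single centre
      obtain ⟨i0, -⟩ : ∃ i : Fin k, i = ⟨0, by omega⟩ := ⟨_, rfl⟩
      have h3 : ∀ i, b i = b i0 := by
        intro i
        exact Finset.card_le_one.1 (by omega) _ (Finset.mem_image_of_mem b (Finset.mem_univ i)) _
          (Finset.mem_image_of_mem b (Finset.mem_univ i0))
      have h4 : closure C ⊆ Metric.closedBall (b i0) 1 := by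
        intro y hy
        obtain ⟨i, hi⟩ := Set.mem_iUnion.1 (hCl hy)
        rw [h3 i] at hi
        exact hi
      have h5 : volume.real (closure C) ≤ volume.real (Metric.closedBall (b i0) 1) :=
        measureReal_mono h4 (isCompact_closedBall _ _).measure_lt_top.ne
      have h6 : volume.real (Metric.closedBall (b i0) 1) = SC70.kap (n + 1) := by
        unfold SC70.kap
        rw [measureReal_def, measureReal_def, Measure.addHaar_closedBall_center]
      rw [h6] at h5
      have h7 : 1 * SC70.kap (n + 1) ≤ (β * k) * SC70.kap (n + 1) :=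
        mul_le_mul_of_nonneg_right (by nlinarith) hκ.le
      linarith
  have hkk : (k : ENNReal) = ENNReal.ofReal k := by rw [ENNReal.ofReal_natCast]
  calc volume C ≤ ENNReal.ofReal (volume.real (closure C)) := hV
    _ ≤ ENNReal.ofReal (β * (k * SC70.kap (n + 1))) := ENNReal.ofReal_le_ofReal key
    _ = ENNReal.ofReal β *
        (k * volume (Metric.closedBall (0 : EuclideanSpace ℝ (Fin (n + 1))) 1)) := by
        rw [ENNReal.ofReal_mul (by linarith), ENNReal.ofReal_mul (by linarith), hB, hkk]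

end Pool.Agent.Results.MP_eb9223_co.TwoBalls
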